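import Mathlib
import Pool.Agent.V11111.RN.Defs
import Pool.Agent.V11111.RN.Main

/-!
The relaxed problem for reinforcing networks is not the relaxation of the network problem: for the
disc of radius 10, the length 3/2 and a suitable load the supremum of the energies of the networks
is strictly smaller than the energy of a measure in the weak* closure.
-/

set_option autoImplicit false
open MeasureTheory Set Topology Filter
open Pool.Agent.V11111.RN

namespace Pool.Agent.Results.MP_3f57e5_an.NetworkGap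

theorem result : ∃ (m : ℝ) (f₁ f₂ μ : Measure Plane), 0 < m ∧
    IsFiniteMeasure f₁ ∧ IsFiniteMeasure f₂ ∧
    f₁ (Metric.ball (0 : Plane) 10)ᶜ = 0 ∧ f₂ (Metric.ball (0 : Plane) 10)ᶜ = 0 ∧
    (∃ S ∈ Network (Metric.ball 0 10) (3 / 2),
      ⊥ < energy (Metric.ball 0 10) m f₁ f₂ ((μH[1] : Measure Plane).restrict S)) ∧
    μ ∈ Relaxed (Metric.ball 0 10) (3 / 2) ∧
    (⨆ S ∈ Network (Metric.ball 0 10) (3 / 2),
        energy (Metric.ball 0 10) m f₁ f₂ ((μH[1] : Measure Plane).restrict S)) <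
      energy (Metric.ball 0 10) m f₁ f₂ μ ∧
    ¬ ∃ S : ℕ → Set Plane, (∀ n, S n ∈ Network (Metric.ball 0 10) (3 / 2)) ∧
      (∀ φ : Plane → ℝ, Continuous φ →
        Tendsto (fun n => ∫ x in S n, φ x ∂μH[1]) atTop (𝓝 (∫ x, φ x ∂μ))) ∧
      Tendsto (fun n => energy (Metric.ball 0 10) m f₁ f₂ ((μH[1] : Measure Plane).restrict (S n)))
        atTop (𝓝 (energy (Metric.ball 0 10) m f₁ f₂ μ)) :=
  main

end Pool.Agent.Results.MP_3f57e5_an.NetworkGap
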